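import Mathlib
import Pool.Agent.H7.Coset.Kernel

/-!
Exact covers of balls by cosets of subgroups of infinite index.

If real weights on finitely many cosets of subgroups of infinite index add up to one at every
element of the ball of radius `r`, then the sum of the absolute values of the weights is at least
`r / (4 √|S|)`. In particular a partition of the ball into cosets of subgroups of infinite index,
and more generally a cover of constant multiplicity, needs linearly many cosets.
-/

set_option autoImplicit false

namespace Pool.Agent.Results.MP_fd7e30_al.ExactCover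

open Pool.Agent.H7.Coset

/-- The Schreier graph of a generating set is connected. -/
theorem connected {G : Type*} [Group G] (S : Finset G) (hS : Subgroup.closure (S : Set G) = ⊤)
    (H : Subgroup G) (x y : G ⧸ H) :
    Relation.ReflTransGen (fun a b => ∃ s ∈ S, b = s • a ∨ a = s • b) x y := by
  set R : G ⧸ H → G ⧸ H → Prop := fun a b => ∃ s ∈ S, b = s • a ∨ a = s • b with hR
  have hsymm : ∀ a b, Relation.ReflTransGen R a b → Relation.ReflTransGen R b a := by
    intro a b hab
    induction hab with
    | refl => exact Relation.ReflTransGen.refl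
    | tail _ hbc ih =>
      obtain ⟨s, hs, h⟩ := hbc
      exact Relation.ReflTransGen.head ⟨s, hs, h.symm⟩ ih
  have key : ∀ g : G, ∀ x : G ⧸ H, Relation.ReflTransGen R x (g • x) := by
    intro g
    have hg : g ∈ Subgroup.closure (S : Set G) := by rw [hS]; exact Subgroup.mem_top g
    induction hg using Subgroup.closure_induction with
    | mem s hs =>
      intro x
      exact Relation.ReflTransGen.single ⟨s, hs, Or.inl rfl⟩
    | one =>
      intro x
      rw [one_smul]
    | mul a b _ _ ha hb =>
      intro x
      rw [mul_smul]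
      exact (hb x).trans (ha (b • x))
    | inv a _ ha =>
      intro x
      have h := ha (a⁻¹ • x)
      rw [smul_inv_smul] at h
      exact hsymm _ _ h
  obtain ⟨g, rfl⟩ := MulAction.exists_smul_eq G x y
  exact key g x

/-- Weighted version. -/
theorem weighted {G : Type*} [Group G] (S : Finset G)
    (hS : Subgroup.closure (S : Set G) = ⊤) (r n : ℕ) (g : Fin n → G) (H : Fin n → Subgroup G)
    (hH : ∀ i, (H i).index = 0) (c : Fin n → ℝ)
    (hc : ∀ l : List G, l.length ≤ r → (∀ x ∈ l, x ∈ S ∨ x⁻¹ ∈ S) →
      ∑ i, (open Classical in if (g i)⁻¹ * l.prod ∈ H i then c i else 0) = 1) :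
    (r : ℝ) ≤ 4 * Real.sqrt S.card * ∑ i, |c i| := by
  classical
  -- the generating set is nonempty
  have hn : 0 < n := by
    rcases Nat.eq_zero_or_pos n with h | h
    · subst h
      have := hc [] (by simp) (by simp)
      simp at this
    · exact h
  have hSne : S.Nonempty := by
    rw [Finset.nonempty_iff_ne_empty]
    rintro rfl
    rw [Finset.coe_empty, Subgroup.closure_empty] at hS
    have h1 := hH ⟨0, hn⟩
    have h2 : H ⟨0, hn⟩ = ⊤ := by
      rw [← hS]
      refine le_antisymm ?_ bot_le
      rw [hS]
      exact le_top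
    rw [h2, Subgroup.index_top] at h1
    exact one_ne_zero h1
  -- the weights as a function on the group
  let φ : G → ℝ := ∑ i, c i • orb ((1 : G) : G ⧸ H i) (Finsupp.single ((g i : G) : G ⧸ H i) (1 : ℝ))
  have hφ : ∀ u : G, φ u = ∑ i, if (g i)⁻¹ * u ∈ H i then c i else 0 := by
    intro u
    simp only [φ, Finset.sum_apply, Pi.smul_apply, smul_eq_mul]
    refine Finset.sum_congr rfl fun i _ => ?_
    change c i * Finsupp.single ((g i : G) : G ⧸ H i) (1 : ℝ) (u • ((1 : G) : G ⧸ H i)) = _
    have e : ((g i : G) : G ⧸ H i) = u • ((1 : G) : G ⧸ H i) ↔ (g i)⁻¹ * u ∈ H i := by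
      rw [MulAction.Quotient.smul_coe, smul_eq_mul, mul_one, QuotientGroup.eq]
    rw [Finsupp.single_apply]
    by_cases hmem : (g i)⁻¹ * u ∈ H i
    · rw [if_pos (e.2 hmem), if_pos hmem, mul_one]
    · rw [if_neg fun h => hmem (e.1 h), if_neg hmem, mul_zero]
  set m := r / 2 with hm
  have hdeg : (dd m * dd m).natDegree ≤ r := by
    have h1 := dd_natDegree m
    exact Polynomial.natDegree_mul_le.trans (by omega)
  have h0 : Polynomial.aeval (avgG S) (dd m * dd m) (φ - fun _ => (1 : ℝ)) 1 = 0 := by
    refine aeval_vanish S r _ (fun u hu => ?_) _ hdeg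
    obtain ⟨l, hl, hl2, rfl⟩ := hu
    rw [Pi.sub_apply, hφ]
    have := hc l hl hl2
    linarith
  rw [map_sub, Pi.sub_apply, aeval_one S hSne, Polynomial.eval_mul, dd_eval_one, sub_eq_zero] at h0
  have h1 : Polynomial.aeval (avgG S) (dd m * dd m) φ 1 = ∑ i, c i *
      Polynomial.aeval (avg S) (dd m * dd m) (Finsupp.single ((g i : G) : G ⧸ H i) (1 : ℝ))
        ((1 : G) • ((1 : G) : G ⧸ H i)) := by
    simp only [φ, map_sum, map_smul, Finset.sum_apply, Pi.smul_apply, smul_eq_mul,
      aeval_avgG_orb]
    rfl
  rw [h1] at h0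
  have hr : (r : ℝ) ≤ 2 * m + 1 := by
    have : r ≤ 2 * m + 1 := by omega
    exact_mod_cast this
  have hpos : (0 : ℝ) < 2 * m + 1 := by positivity
  have h2 : (2 * (m : ℝ) + 1) * (2 * m + 1) ≤
      (4 * Real.sqrt S.card * ∑ i, |c i|) * (2 * m + 1) := by
    refine le_of_eq_of_le h0.symm ?_
    calc ∑ i, c i * Polynomial.aeval (avg S) (dd m * dd m)
          (Finsupp.single ((g i : G) : G ⧸ H i) (1 : ℝ)) ((1 : G) • ((1 : G) : G ⧸ H i))
        ≤ ∑ i, |c i| * (4 * Real.sqrt S.card * (2 * m + 1)) := by
          refine Finset.sum_le_sum fun i _ => ?_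
          have hinf : Infinite (G ⧸ H i) := Subgroup.index_eq_zero_iff_infinite.1 (hH i)
          refine (le_abs_self _).trans ?_
          rw [abs_mul]
          gcongr
          exact kernel_bound S (connected S hS (H i)) m _ _
      _ = _ := by
          rw [← Finset.sum_mul]
          ring
  exact hr.trans (le_of_mul_le_mul_right h2 hpos)

/-- Exact covers need linearly many cosets. Let `S` be a finite generating set of a group `G` and
`r` a natural number. (1) If real weights `c i` on cosets `g i H i` of subgroups of infinite index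
add up to one at every element of the ball of radius `r`, then `r ≤ 4 √|S| ∑ |c i|`. (2) If every
element of the ball of radius `r` lies in exactly `m ≥ 1` of `n` cosets of subgroups of infinite
index, then `m r ≤ 4 √|S| n`; for `m = 1` this is the case of a partition of the ball. -/
theorem result {G : Type*} [Group G] (S : Finset G)
    (hS : Subgroup.closure (S : Set G) = ⊤) (r n : ℕ) (g : Fin n → G) (H : Fin n → Subgroup G)
    (hH : ∀ i, (H i).index = 0) :
    (∀ c : Fin n → ℝ,
      (∀ l : List G, l.length ≤ r → (∀ x ∈ l, x ∈ S ∨ x⁻¹ ∈ S) →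
        ∑ i, (open Classical in if (g i)⁻¹ * l.prod ∈ H i then c i else 0) = 1) →
      (r : ℝ) ≤ 4 * Real.sqrt S.card * ∑ i, |c i|) ∧
    (∀ m : ℕ, 1 ≤ m →
      (∀ l : List G, l.length ≤ r → (∀ x ∈ l, x ∈ S ∨ x⁻¹ ∈ S) →
        Nat.card {i : Fin n // (g i)⁻¹ * l.prod ∈ H i} = m) →
      (m : ℝ) * r ≤ 4 * Real.sqrt S.card * n) := by
  classical
  refine ⟨fun c hc => weighted S hS r n g H hH c hc, fun m hm hcover => ?_⟩
  have hm0 : (0 : ℝ) < m := by exact_mod_cast hm
  have h := weighted S hS r n g H hH (fun _ => 1 / (m : ℝ)) (fun l hl hl2 => by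
    have h1 := hcover l hl hl2
    rw [Nat.card_eq_fintype_card, Fintype.card_subtype] at h1
    rw [← Finset.sum_filter, Finset.sum_const, nsmul_eq_mul, ← h1, h1]
    field_simp)
  simp only [abs_of_pos (one_div_pos.2 hm0), Finset.sum_const, Finset.card_univ, Fintype.card_fin,
    nsmul_eq_mul] at h
  calc (m : ℝ) * r ≤ m * (4 * Real.sqrt S.card * (n * (1 / m))) := by gcongr
    _ = 4 * Real.sqrt S.card * n := by field_simp

end Pool.Agent.Results.MP_fd7e30_al.ExactCover
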