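import Mathlib
import Pool.Agent.H32.Cov.Fin

/-!
Covers of balls by cosets of subgroups of infinite index: covers of bounded multiplicity.

If the ball of radius `r` of a group with finite generating set `S` is covered by `N` cosets of
subgroups of infinite index and no element of the ball lies in more than `h` of them, then
`r² ≤ 128 |S| N² (log 4 + (h + 1) log (1 + N))`.
-/

set_option autoImplicit false

namespace Pool.Agent.Results.MP_fd7e30_al.Multiplicity

/-- Let `S` be a finite generating set of a group `G` and let `g i * H i`, `i < N`, be cosets of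
subgroups of infinite index such that every element of the ball of radius `r` lies in at least one
and in at most `h` of them. Then `r² ≤ 128 |S| N² (log 4 + (h + 1) log (1 + N))`. -/
theorem result {G : Type*} [Group G] (S : Finset G)
    (hS : Subgroup.closure (S : Set G) = ⊤) (r N h : ℕ) (g : Fin N → G) (H : Fin N → Subgroup G)
    (hH : ∀ i, (H i).index = 0)
    (hc : ∀ l : List G, l.length ≤ r → (∀ x ∈ l, x ∈ S ∨ x⁻¹ ∈ S) →
      1 ≤ Nat.card {i : Fin N // (g i)⁻¹ * l.prod ∈ H i} ∧
        Nat.card {i : Fin N // (g i)⁻¹ * l.prod ∈ H i} ≤ h) :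
    (r : ℝ) ^ 2 ≤ 128 * S.card * (N : ℝ) ^ 2 *
      (Real.log 4 + ((h : ℝ) + 1) * Real.log (1 + (N : ℝ))) := by
  classical
  have e : ∀ (i : Fin N) (u : G), ((u : G) : G ⧸ H i) ∈ ({((g i : G) : G ⧸ H i)} : Finset (G ⧸ H i)) ↔
      (g i)⁻¹ * u ∈ H i := by
    intro i u
    rw [Finset.mem_singleton, eq_comm, QuotientGroup.eq]
  refine (Pool.Agent.H32.Cov.all S hS r N N H hH (fun i => {((g i : G) : G ⧸ H i)}) (by simp)
    (fun l hl hl2 => ?_)).2.2.2 h (fun l hl hl2 => ?_)
  · have h1 := (hc l hl hl2).1
    have h2 : Nonempty {i : Fin N // (g i)⁻¹ * l.prod ∈ H i} := by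
      by_contra hcon
      rw [not_nonempty_iff] at hcon
      rw [Nat.card_of_isEmpty] at h1
      omega
    obtain ⟨i, hi⟩ := h2
    exact ⟨i, (e i _).2 hi⟩
  · refine le_trans (le_of_eq ?_) (hc l hl hl2).2
    exact Nat.card_congr (Equiv.subtypeEquivRight fun i => e i _)

end Pool.Agent.Results.MP_fd7e30_al.Multiplicity
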