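import Mathlib
import Pool.Agent.H12.Cov.Main

/-!
Covers of balls by cosets of subgroups of infinite index: an upper bound below the sharp bound for
one subgroup, at all scales.

Balls of radius `r` of free groups of rank at least three, and of all groups mapping suitably onto
`Z₂ * V₄`, are covered by `6 r / 7 + O(1)` cosets of four subgroups of infinite index.
-/

set_option autoImplicit false

namespace Pool.Agent.Results.MP_fd7e30_al.SixSevenths

universe u

/-- The group of order two. -/
abbrev C2 := Multiplicative (ZMod 2)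

/-- The ball of radius `r` with respect to `S` is contained in the union of `N` left cosets of
(at most) four subgroups of infinite index. -/
def Covered (G : Type*) [Group G] (S : Set G) (r N : ℕ) : Prop :=
  ∃ (K : Fin 4 → Subgroup G) (c : Fin N → Fin 4) (g : Fin N → G),
    (∀ j, (K j).index = 0) ∧
    ∀ l : List G, l.length ≤ r → (∀ x ∈ l, x ∈ S ∨ x⁻¹ ∈ S) → ∃ i, (g i)⁻¹ * l.prod ∈ K (c i)

/-- For odd `d` the ball of radius `7 d - 1` is covered by `6 d` cosets, and for all `r` the ball
of radius `r` is covered by at most `6 r / 7 + 12` cosets. -/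
def Bound (G : Type*) [Group G] (S : Set G) : Prop :=
  (∀ d : ℕ, Odd d → Covered G S (7 * d - 1) (6 * d)) ∧
  ∀ r : ℕ, ∃ N : ℕ, 7 * N ≤ 6 * r + 84 ∧ Covered G S r N

theorem key (G : Type*) [Group G] (S : Set G) (φ : G →* Monoid.Coprod C2 (C2 × C2))
    (hφ : Function.Surjective φ)
    (hS : ∀ x ∈ S, φ x ∈ Set.range (Monoid.Coprod.inl : C2 →* Monoid.Coprod C2 (C2 × C2)) ∪
      Set.range (Monoid.Coprod.inr : C2 × C2 →* Monoid.Coprod C2 (C2 × C2))) :
    Bound G S := by
  constructor
  · rintro d ⟨e, rfl⟩
    exact Pool.Agent.H12.Cov.cov_main S φ hφ hS e _ (by omega)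
  · intro r
    refine ⟨6 * (2 * ((r / 7 + 1) / 2) + 1), by omega, ?_⟩
    exact Pool.Agent.H12.Cov.cov_main S φ hφ hS _ _ (by omega)

/-- Every group `G` with a surjective homomorphism onto the free product of a group of order two
and a Klein four-group that maps the elements of `S` into the two factors, and every free group of
finite rank at least three with its standard basis, satisfies `Bound`. -/
theorem result :
    (∀ (G : Type u) [Group G] (S : Set G) (φ : G →* Monoid.Coprod C2 (C2 × C2)),
      Function.Surjective φ →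
      (∀ x ∈ S, (∃ z, φ x = Monoid.Coprod.inl z) ∨ ∃ z, φ x = Monoid.Coprod.inr z) →
      Bound G S) ∧
    ∀ k : ℕ, 3 ≤ k → Bound (FreeGroup (Fin k)) (Set.range FreeGroup.of) := by
  constructor
  · intro G _ S φ hφ hS
    refine key G S φ hφ fun x hx => ?_
    rcases hS x hx with ⟨z, hz⟩ | ⟨z, hz⟩
    · left
      exact ⟨z, hz.symm⟩
    · right
      exact ⟨z, hz.symm⟩
  · intro k hk
    obtain ⟨φ, h1, h2⟩ := Pool.Agent.H12.Cov.free_hom k hk
    exact key _ _ φ h1 h2

end Pool.Agent.Results.MP_fd7e30_al.SixSevenths
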