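import Mathlib
import Pool.Agent.H32.Cov.Fin

/-!
Covers of balls by cosets of subgroups of infinite index: lower bounds for arbitrary covers.

If the ball of radius `r` of a group with finite generating set `S` is covered by `N` cosets of
subgroups of infinite index, then `r² ≤ 270 |S| N³`. The bound improves when few subgroups are
used.
-/

set_option autoImplicit false

namespace Pool.Agent.Results.MP_fd7e30_al.TwoThirds

/-- Let `S` be a finite generating set of a group `G`, let `H 0, …, H (k-1)` be subgroups of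
infinite index, let `Y i` be a finite set of left cosets of `H i`, and let `N` be the total number
of these cosets. If they cover the ball of radius `r`, then `r² ≤ 270 |S| N³`, and, more
precisely, `r² ≤ 128 |S| N² log (4 ∏ (1 + √|Y i|))` and
`r² ≤ 128 |S| N² (log 4 + k log (1 + √(N / k)))`. -/
theorem result {G : Type*} [Group G] (S : Finset G)
    (hS : Subgroup.closure (S : Set G) = ⊤) (r k N : ℕ) (H : Fin k → Subgroup G)
    (hH : ∀ i, (H i).index = 0) (Y : ∀ i, Finset (G ⧸ H i)) (hN : N = ∑ i, (Y i).card)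
    (hc : ∀ l : List G, l.length ≤ r → (∀ x ∈ l, x ∈ S ∨ x⁻¹ ∈ S) →
      ∃ i, ((l.prod : G) : G ⧸ H i) ∈ Y i) :
    ((r : ℝ) ^ 2 ≤ 270 * S.card * (N : ℝ) ^ 3) ∧
    ((r : ℝ) ^ 2 ≤ 128 * S.card * (N : ℝ) ^ 2 *
      Real.log (4 * ∏ i, (1 + Real.sqrt (Y i).card))) ∧
    ((r : ℝ) ^ 2 ≤ 128 * S.card * (N : ℝ) ^ 2 *
      (Real.log 4 + k * Real.log (1 + Real.sqrt ((N : ℝ) / k)))) := by
  obtain ⟨h1, h2, h3, _⟩ := Pool.Agent.H32.Cov.all S hS r k N H hH Y hN hc
  exact ⟨h1, h2, h3⟩

end Pool.Agent.Results.MP_fd7e30_al.TwoThirds
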